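import Mathlib

open Filter Topology

namespace Pool.Agent.H275R.LocRefl

variable {E : Type*} [NormedAddCommGroup E] [NormedSpace ℝ E]

instance instFreeG (G : Submodule ℝ (StrongDual ℝ E)) : Module.Free ℝ G :=
  Module.Free.of_divisionRing ℝ G

lemma ev_surj_gen {V₁ V₂ : Type*} [AddCommGroup V₁] [Module ℝ V₁] [AddCommGroup V₂] [Module ℝ V₂]
    [FiniteDimensional ℝ V₁] (B : V₁ →ₗ[ℝ] V₂ →ₗ[ℝ] ℝ) (h : Function.Injective B) :
    Function.Surjective B.flip := LinearMap.flip_surjective_iff₁.mpr h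

lemma ev_fam_gen {V₁ V₂ : Type*} [AddCommGroup V₁] [Module ℝ V₁] [AddCommGroup V₂] [Module ℝ V₂]
    [FiniteDimensional ℝ V₁] (B : V₁ → V₂ → ℝ) (hB1 : ∀ a b y, B (a + b) y = B a y + B b y)
    (hB2 : ∀ (c : ℝ) a y, B (c • a) y = c * B a y)
    (hB3 : ∀ a x y, B a (x + y) = B a x + B a y)
    (hB4 : ∀ (c : ℝ) a x, B a (c • x) = c * B a x)
    (h : ∀ a, (∀ y, B a y = 0) → a = 0) (φ : V₁ →ₗ[ℝ] ℝ) : ∃ x, ∀ a, B a x = φ a := by
  let B' : V₁ →ₗ[ℝ] V₂ →ₗ[ℝ] ℝ := LinearMap.mk₂ ℝ B hB1 hB2 hB3 hB4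
  have hi : Function.Injective B' := by
    rw [← LinearMap.ker_eq_bot, LinearMap.ker_eq_bot']
    intro a ha
    exact h a (fun y => LinearMap.congr_fun ha y)
  obtain ⟨x, hx⟩ := ev_surj_gen B' hi φ
  exact ⟨x, fun a => by rw [← hx]; rfl⟩

lemma ev_fam (G : Submodule ℝ (StrongDual ℝ E)) [FiniteDimensional ℝ G] (φ : G →ₗ[ℝ] ℝ) :
    ∃ x : E, ∀ g : G, (g : StrongDual ℝ E) x = φ g :=
  ev_fam_gen (V₁ := G) (V₂ := E) (fun g x => (g : StrongDual ℝ E) x)
    (fun a b y => rfl) (fun c a y => rfl) (fun a x y => map_add _ _ _)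
    (fun c a x => by simp) (fun a h => Subtype.ext (by ext y; exact h y)) φ

lemma alg_sol (v : StrongDual ℝ E →L[ℝ] StrongDual ℝ E)
    (G : Submodule ℝ (StrongDual ℝ E)) [FiniteDimensional ℝ G] :
    ∃ w : E →L[ℝ] E, (∀ g : StrongDual ℝ E, ∃ f, g.comp w = v f) ∧
      ∀ g ∈ G, g.comp w = v g := by
  classical
  let b := Module.finBasis ℝ G
  have hx : ∀ i, ∃ x : E, ∀ g : G, (g : StrongDual ℝ E) x = b.coord i g := by
    intro i
    exact ev_fam G (b.coord i)
  choose x hx using hx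
  refine ⟨∑ i, (v (b i : StrongDual ℝ E)).smulRight (x i), ?_, ?_⟩
  · intro g
    refine ⟨∑ i, g (x i) • (b i : StrongDual ℝ E), ?_⟩
    ext y
    simp [map_sum, mul_comm]
  · intro g hg
    ext y
    have h1 : g = ∑ i, (b.coord i ⟨g, hg⟩) • (b i : StrongDual ℝ E) := by
      have h3 := congrArg (G.subtype) (b.sum_repr ⟨g, hg⟩)
      rw [map_sum] at h3
      simp only [map_smul] at h3
      exact h3.symm
    have h2 : v g y = ∑ i, (b.coord i ⟨g, hg⟩) * (v (b i : StrongDual ℝ E)) y := by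
      conv_lhs => rw [h1]
      simp [map_sum]
    rw [h2]
    simp only [ContinuousLinearMap.comp_apply, _root_.sum_apply,
      ContinuousLinearMap.smulRight_apply, map_sum, map_smul, smul_eq_mul]
    refine Finset.sum_congr rfl fun i _ => ?_
    rw [← hx i ⟨g, hg⟩, mul_comm]

/-- the operators on `E` whose adjoint maps into `F` -/
def WF (F : Submodule ℝ (StrongDual ℝ E)) : Submodule ℝ (E →L[ℝ] E) where
  carrier := {w | ∀ g : StrongDual ℝ E, g.comp w ∈ F}
  add_mem' := by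
    intro a b ha hb g
    have : g.comp (a + b) = g.comp a + g.comp b := by ext; simp
    rw [this]; exact F.add_mem (ha g) (hb g)
  zero_mem' := by
    intro g
    have : g.comp (0 : E →L[ℝ] E) = 0 := by ext; simp
    rw [this]; exact F.zero_mem
  smul_mem' := by
    intro c a ha g
    have : g.comp (c • a) = c • g.comp a := by ext; simp
    rw [this]; exact F.smul_mem c (ha g)

def WT (F : Submodule ℝ (StrongDual ℝ E)) : Type _ := ↥(WF F)
noncomputable instance instWT1 (F : Submodule ℝ (StrongDual ℝ E)) : NormedAddCommGroup (WT F) :=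
  inferInstanceAs (NormedAddCommGroup ↥(WF F))
noncomputable instance instWT2 (F : Submodule ℝ (StrongDual ℝ E)) : NormedSpace ℝ (WT F) :=
  inferInstanceAs (NormedSpace ℝ ↥(WF F))
noncomputable def WTv (F : Submodule ℝ (StrongDual ℝ E)) : WT F →ₗ[ℝ] (E →L[ℝ] E) where
  toFun := fun w => w.1
  map_add' := fun _ _ => rfl
  map_smul' := fun _ _ => rfl
lemma WTn (F : Submodule ℝ (StrongDual ℝ E)) (w : WT F) : ‖w‖ = ‖WTv F w‖ := rfl
lemma WTm (F : Submodule ℝ (StrongDual ℝ E)) (w : WT F) : WTv F w ∈ WF F := w.2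

lemma dual_family (F : Submodule ℝ (StrongDual ℝ E)) [FiniteDimensional ℝ F] :
    ∃ (n : ℕ) (f : Fin n → StrongDual ℝ E) (x : Fin n → E),
      ∀ w ∈ WF F, ∀ y : E, w y = ∑ i, f i y • w (x i) := by
  classical
  let b := Module.finBasis ℝ F
  have hx : ∀ i, ∃ x : E, ∀ g : F, (g : StrongDual ℝ E) x = b.coord i g := by
    intro i
    exact ev_fam F (b.coord i)
  choose x hx using hx
  refine ⟨_, fun i => (b i : StrongDual ℝ E), x, ?_⟩
  intro w hw y
  rw [SeparatingDual.eq_iff_forall_dual_eq (R := ℝ)]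
  intro g
  have hg : g.comp w ∈ F := hw g
  have h1 : g.comp w = ∑ i, (b.coord i ⟨g.comp w, hg⟩) • (b i : StrongDual ℝ E) := by
    have h3 := congrArg (F.subtype) (b.sum_repr ⟨g.comp w, hg⟩)
    rw [map_sum] at h3
    simp only [map_smul] at h3
    exact h3.symm
  have h2 : g (w y) = ∑ i, (b.coord i ⟨g.comp w, hg⟩) * (b i : StrongDual ℝ E) y := by
    have h4 : g (w y) = (g.comp w) y := rfl
    rw [h4]
    conv_lhs => rw [h1]
    simp [map_sum]
  rw [h2, map_sum]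
  refine Finset.sum_congr rfl fun i _ => ?_
  rw [← hx i ⟨g.comp w, hg⟩, map_smul, smul_eq_mul, mul_comm]
  rfl

lemma norming (F : Submodule ℝ (StrongDual ℝ E)) [FiniteDimensional ℝ F] :
    ∃ (ι : Type) (_ : Fintype ι) (z : ι → E), (∀ i, ‖z i‖ ≤ 1) ∧
      ∀ w ∈ WF F, ∀ M : ℝ, 0 ≤ M → (∀ i, ‖w (z i)‖ ≤ M) → ‖w‖ ≤ 2 * M := by
  classical
  obtain ⟨n, f, x, hfx⟩ := dual_family F
  let Q : E →L[ℝ] (Fin n → ℝ) := ContinuousLinearMap.pi f
  have hbd : Bornology.IsBounded (Q '' Metric.closedBall 0 1) :=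
    (Metric.isBounded_closedBall).image Q
  have htb : TotallyBounded (Q '' Metric.closedBall 0 1) := (Metric.isCompact_of_isClosed_isBounded isClosed_closure hbd.closure).totallyBounded.subset
      subset_closure
  set S : ℝ := ∑ j, ‖x j‖ with hS
  have hS0 : 0 ≤ S := Finset.sum_nonneg fun j _ => norm_nonneg _
  obtain ⟨t, hts, htf, htc⟩ := Metric.finite_approx_of_totallyBounded htb
    (1 / (2 * (S + 1))) (by positivity)
  have hz : ∀ y : t, ∃ z : E, ‖z‖ ≤ 1 ∧ Q z = y := by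
    intro y
    obtain ⟨z, hz, hzy⟩ := hts y.2
    exact ⟨z, by simpa using hz, hzy⟩
  choose z hz1 hz2 using hz
  refine ⟨t, htf.fintype, z, hz1, ?_⟩
  intro w hw M hM hwM
  have key : ‖w‖ ≤ M + ‖w‖ / 2 := by
    apply ContinuousLinearMap.opNorm_le_of_unit_norm (by positivity)
    intro y hy
    have hy' : Q y ∈ ⋃ u ∈ t, Metric.ball u (1 / (2 * (S + 1))) :=
      htc ⟨y, by simp [hy], rfl⟩
    simp only [Set.mem_iUnion] at hy'
    obtain ⟨u, hut, hyu⟩ := hy'
    have hd : ∀ j, |f j (y - z ⟨u, hut⟩)| ≤ 1 / (2 * (S + 1)) := by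
      intro j
      have h1 : dist (Q y) u < 1 / (2 * (S + 1)) := hyu
      have h2 := (dist_le_pi_dist (Q y) u j).trans h1.le
      have h3 : u j = f j (z ⟨u, hut⟩) := by
        have := congrFun (hz2 ⟨u, hut⟩) j
        exact this.symm
      have h4 : Q y j = f j y := rfl
      rw [Real.dist_eq, h3, h4, ← map_sub] at h2
      exact h2
    have h5 : ‖w (y - z ⟨u, hut⟩)‖ ≤ ‖w‖ / 2 := by
      rw [hfx w hw]
      calc ‖∑ i, f i (y - z ⟨u, hut⟩) • w (x i)‖ ≤ ∑ i, ‖f i (y - z ⟨u, hut⟩) • w (x i)‖ :=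
            norm_sum_le _ _
        _ ≤ ∑ i, (1 / (2 * (S + 1))) * (‖w‖ * ‖x i‖) := by
            refine Finset.sum_le_sum fun i _ => ?_
            rw [norm_smul, Real.norm_eq_abs]
            exact mul_le_mul (hd i) (w.le_opNorm _) (norm_nonneg _) (by positivity)
        _ = (1 / (2 * (S + 1))) * (‖w‖ * S) := by
            rw [← Finset.mul_sum, ← Finset.mul_sum]
        _ ≤ ‖w‖ / 2 := by
            rw [div_mul_eq_mul_div, one_mul, div_le_div_iff₀ (by positivity) (by positivity)]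
            nlinarith [norm_nonneg w]
    calc ‖w y‖ = ‖w (z ⟨u, hut⟩) + w (y - z ⟨u, hut⟩)‖ := by rw [← map_add]; congr 2; abel
      _ ≤ ‖w (z ⟨u, hut⟩)‖ + ‖w (y - z ⟨u, hut⟩)‖ := norm_add_le _ _
      _ ≤ M + ‖w‖ / 2 := add_le_add (hwM _) h5
  linarith

lemma repr_fun (F : Submodule ℝ (StrongDual ℝ E)) [FiniteDimensional ℝ F] :
    ∃ (ι : Type) (_ : Fintype ι) (z : ι → E), (∀ i, ‖z i‖ ≤ 1) ∧
      ∀ φ : StrongDual ℝ (WT F), ∃ g : ι → StrongDual ℝ E,
        (∀ w : WT F, φ w = ∑ i, g i (WTv F w (z i))) ∧ ∑ i, ‖g i‖ ≤ 4 * ‖φ‖ := by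
  classical
  obtain ⟨ι, hι, z, hz, hnorm⟩ := norming F
  refine ⟨ι, hι, z, hz, ?_⟩
  intro φ
  let J : WT F →ₗ[ℝ] (ι → E) :=
    { toFun := fun w i => WTv F w (z i)
      map_add' := by intro a b; ext i; simp
      map_smul' := by intro c a; ext i; simp }
  have hJn : ∀ w : WT F, ‖w‖ ≤ 2 * ‖J w‖ := by
    intro w
    exact hnorm (WTv F w) (WTm F w) ‖J w‖ (norm_nonneg _) (fun i => norm_le_pi_norm (J w) i)
  have hJi : Function.Injective J := by
    rw [← LinearMap.ker_eq_bot, LinearMap.ker_eq_bot']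
    intro w hw
    have := hJn w
    rw [hw, norm_zero, mul_zero] at this
    exact norm_le_zero_iff.mp this
  let e := LinearEquiv.ofInjective J hJi
  let ψ0 : LinearMap.range J →ₗ[ℝ] ℝ := (φ : WT F →ₗ[ℝ] ℝ).comp e.symm.toLinearMap
  have hψ0 : ∀ y : LinearMap.range J, ‖ψ0 y‖ ≤ (2 * ‖φ‖) * ‖y‖ := by
    intro y
    have h1 : ‖ψ0 y‖ ≤ ‖φ‖ * ‖e.symm y‖ := φ.le_opNorm _
    have h2 : J (e.symm y) = y := by
      have := congrArg Subtype.val (e.apply_symm_apply y)
      exact this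
    have h3 := hJn (e.symm y)
    rw [h2] at h3
    have h4 : ‖(y : ι → E)‖ = ‖y‖ := rfl
    rw [h4] at h3
    calc ‖ψ0 y‖ ≤ ‖φ‖ * ‖e.symm y‖ := h1
      _ ≤ ‖φ‖ * (2 * ‖y‖) := mul_le_mul_of_nonneg_left h3 (norm_nonneg _)
      _ = _ := by ring
  obtain ⟨ψ, hψ1, hψ2⟩ := exists_extension_norm_eq (LinearMap.range J)
    (ψ0.mkContinuous (2 * ‖φ‖) hψ0)
  have hψn : ‖ψ‖ ≤ 2 * ‖φ‖ := by
    rw [hψ2]
    exact LinearMap.mkContinuous_norm_le _ (by positivity) _
  have hsum : ∀ b : ι → E, ψ b = ∑ i, ψ (Pi.single i (b i)) := by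
    intro b
    rw [← map_sum, Finset.univ_sum_single]
  refine ⟨fun i => ψ.comp (ContinuousLinearMap.single ℝ (fun _ => E) i), ?_, ?_⟩
  · intro w
    have h1 : φ w = ψ (J w) := by
      have h2 := hψ1 ⟨J w, LinearMap.mem_range_self J w⟩
      have h3 : e.symm ⟨J w, LinearMap.mem_range_self J w⟩ = w := by
        rw [LinearEquiv.symm_apply_eq]
        rfl
      have h4 : ψ (J w) = φ (e.symm ⟨J w, LinearMap.mem_range_self J w⟩) := h2
      rw [h4, h3]
    rw [h1, hsum]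
    rfl
  · have hch : ∀ i, ∃ b : E, ‖b‖ ≤ 1 ∧
        ‖ψ.comp (ContinuousLinearMap.single ℝ (fun _ => E) i)‖ ≤
          2 * (ψ.comp (ContinuousLinearMap.single ℝ (fun _ => E) i)) b := by
      intro i
      set g := ψ.comp (ContinuousLinearMap.single ℝ (fun _ => E) i)
      by_cases hg : ‖g‖ = 0
      · exact ⟨0, by simp, by simp [hg]⟩
      · have hgp : 0 < ‖g‖ := lt_of_le_of_ne (norm_nonneg _) (Ne.symm hg)
        obtain ⟨b, hb, hgb⟩ := g.exists_lt_apply_of_lt_opNorm (r := ‖g‖ / 2) (by linarith)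
        rcases abs_cases (g b) with ⟨h, _⟩ | ⟨h, _⟩
        · refine ⟨b, hb.le, ?_⟩
          rw [Real.norm_eq_abs, h] at hgb
          linarith
        · refine ⟨-b, by rw [norm_neg]; exact hb.le, ?_⟩
          rw [Real.norm_eq_abs, h] at hgb
          rw [map_neg]
          linarith
    choose b hb hgb using hch
    have h1 : ψ b ≤ ‖ψ‖ := by
      have h2 : ‖b‖ ≤ 1 := (pi_norm_le_iff_of_nonneg zero_le_one).mpr hb
      calc ψ b ≤ ‖ψ b‖ := Real.le_norm_self _
        _ ≤ ‖ψ‖ * ‖b‖ := ψ.le_opNorm _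
        _ ≤ ‖ψ‖ * 1 := mul_le_mul_of_nonneg_left h2 (norm_nonneg _)
        _ = ‖ψ‖ := mul_one _
    calc ∑ i, ‖ψ.comp (ContinuousLinearMap.single ℝ (fun _ => E) i)‖
        ≤ ∑ i, 2 * (ψ.comp (ContinuousLinearMap.single ℝ (fun _ => E) i)) (b i) :=
          Finset.sum_le_sum fun i _ => hgb i
      _ = 2 * ψ b := by
          rw [← Finset.mul_sum, hsum b]
          rfl
      _ ≤ 4 * ‖φ‖ := by linarith

lemma local_refl (v : StrongDual ℝ E →L[ℝ] StrongDual ℝ E)
    (F : Submodule ℝ (StrongDual ℝ E)) [FiniteDimensional ℝ F] (hv : ∀ g, v g ∈ F)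
    (H : Submodule ℝ (StrongDual ℝ E)) [FiniteDimensional ℝ H] :
    ∃ w : E →L[ℝ] E, (∀ g : StrongDual ℝ E, g.comp w ∈ F) ∧ (∀ h ∈ H, h.comp w = v h) ∧
      ‖w‖ ≤ 4 * ‖v‖ + 1 := by
  classical
  by_contra hcon
  push Not at hcon
  obtain ⟨ι, hι, z, hz, hrep⟩ := repr_fun F
  obtain ⟨w0, hw0a, hw0b⟩ := alg_sol v H
  have hw0 : w0 ∈ WF F := fun g => by
    obtain ⟨f, hf⟩ := hw0a g
    rw [hf]; exact hv f
  let W0 : WT F := ⟨w0, hw0⟩
  have hW0v : WTv F W0 = w0 := rfl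
  set R : ℝ := 4 * ‖v‖ + 1 with hRdef
  have hR : 0 < R := by positivity
  let s : Set (WT F) := Metric.ball 0 R
  let t : Set (WT F) := {w | ∀ h ∈ H, h.comp (WTv F w) = v h}
  have hs1 : Convex ℝ s := convex_ball 0 R
  have hs2 : IsOpen s := Metric.isOpen_ball
  have ht : Convex ℝ t := by
    intro a ha b hb p q hp hq hpq h hh
    rw [map_add, map_smul, map_smul]
    ext y
    have h1 : h (WTv F a y) = v h y := congrArg (fun k : StrongDual ℝ E => k y) (ha h hh)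
    have h2 : h (WTv F b y) = v h y := congrArg (fun k : StrongDual ℝ E => k y) (hb h hh)
    have h3 : (h.comp (p • WTv F a + q • WTv F b)) y = p * h (WTv F a y) + q * h (WTv F b y) := by
      simp
    rw [h3, h1, h2, ← add_mul, hpq, one_mul]
  have hdisj : Disjoint s t := by
    rw [Set.disjoint_left]
    intro w hws hwt
    have h1 : ‖WTv F w‖ < R := by
      rw [← WTn]
      exact mem_ball_zero_iff.mp hws
    exact absurd h1.le (not_le.mpr (hcon (WTv F w) (WTm F w) hwt))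
  obtain ⟨f, u, hfu, huf⟩ := geometric_hahn_banach_open hs1 hs2 ht hdisj
  have hW0t : W0 ∈ t := hw0b
  have hu0 : 0 < u := by
    have := hfu 0 (Metric.mem_ball_self hR)
    rwa [map_zero] at this
  have hN : ∀ n : WT F, (∀ h ∈ H, h.comp (WTv F n) = 0) → f n = 0 := by
    intro n hn
    by_contra hne
    have h1 : ∀ c : ℝ, u ≤ f (W0 + c • n) := by
      intro c
      apply huf
      intro h hh
      rw [map_add, map_smul]
      ext y
      have h2 : h (WTv F n y) = 0 := congrArg (fun k : StrongDual ℝ E => k y) (hn h hh)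
      have h3 : h (WTv F W0 y) = v h y := congrArg (fun k : StrongDual ℝ E => k y) (hw0b h hh)
      have h4 : (h.comp (WTv F W0 + c • WTv F n)) y = h (WTv F W0 y) + c * h (WTv F n y) := by
        simp
      rw [h4, h2, h3, mul_zero, add_zero]
    have h2 := h1 ((u - f W0 - 1) / f n)
    rw [map_add, map_smul, smul_eq_mul, div_mul_cancel₀ _ hne] at h2
    linarith
  obtain ⟨g, hg1, hg2⟩ := hrep f
  have hspan : FiniteDimensional ℝ (Submodule.span ℝ (Set.range g)) :=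
    FiniteDimensional.span_of_finite ℝ (Set.finite_range g)
  let G : Submodule ℝ (StrongDual ℝ E) := H ⊔ Submodule.span ℝ (Set.range g)
  have : FiniteDimensional ℝ G := Submodule.finiteDimensional_sup _ _
  obtain ⟨w1, hw1a, hw1b⟩ := alg_sol v G
  have hw1 : w1 ∈ WF F := fun g => by
    obtain ⟨f, hf⟩ := hw1a g
    rw [hf]; exact hv f
  let W1 : WT F := ⟨w1, hw1⟩
  have hW1v : WTv F W1 = w1 := rfl
  have h1 : f W0 = f W1 := by
    have h2 : f (W1 - W0) = 0 := by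
      apply hN
      intro h hh
      rw [map_sub]
      ext y
      have h3 : h (w0 y) = v h y := congrArg (fun k : StrongDual ℝ E => k y) (hw0b h hh)
      have h4 : h (w1 y) = v h y := congrArg (fun k : StrongDual ℝ E => k y)
        (hw1b h (Submodule.mem_sup_left hh))
      have h5 : (h.comp (WTv F W1 - WTv F W0)) y = h (w1 y) - h (w0 y) := by
        rw [hW1v, hW0v]; simp
      rw [h5, h3, h4, sub_self]
      rfl
    rw [map_sub] at h2
    linarith
  have h2 : f W1 = ∑ i, v (g i) (z i) := by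
    rw [hg1]
    refine Finset.sum_congr rfl fun i _ => ?_
    exact congrArg (fun k : StrongDual ℝ E => k (z i))
      (hw1b (g i) (Submodule.mem_sup_right (Submodule.subset_span ⟨i, rfl⟩)))
  have h3 : f W1 ≤ ‖v‖ * (4 * ‖f‖) := by
    rw [h2]
    calc ∑ i, v (g i) (z i) ≤ ∑ i, ‖v‖ * ‖g i‖ := by
          refine Finset.sum_le_sum fun i _ => ?_
          calc v (g i) (z i) ≤ ‖v (g i) (z i)‖ := Real.le_norm_self _
            _ ≤ ‖v (g i)‖ * ‖z i‖ := (v (g i)).le_opNorm _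
            _ ≤ ‖v (g i)‖ * 1 := mul_le_mul_of_nonneg_left (hz i) (norm_nonneg _)
            _ = ‖v (g i)‖ := mul_one _
            _ ≤ ‖v‖ * ‖g i‖ := v.le_opNorm _
      _ = ‖v‖ * ∑ i, ‖g i‖ := by rw [Finset.mul_sum]
      _ ≤ ‖v‖ * (4 * ‖f‖) := mul_le_mul_of_nonneg_left hg2 (ContinuousLinearMap.opNorm_nonneg v)
  have h4 : R * ‖f‖ ≤ u := by
    by_contra hlt
    push Not at hlt
    have h5 : u / R < ‖f‖ := by rw [div_lt_iff₀ hR]; linarith
    obtain ⟨x, hx1, hx2⟩ := f.exists_lt_apply_of_lt_opNorm h5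
    have hxR : ‖R • x‖ < R := by
      rw [norm_smul, Real.norm_eq_abs, abs_of_pos hR]
      nlinarith
    have h6 : f (R • x) < u := hfu _ (mem_ball_zero_iff.mpr hxR)
    have h7 : f (-(R • x)) < u := hfu _ (mem_ball_zero_iff.mpr (by rw [norm_neg]; exact hxR))
    rw [map_smul, smul_eq_mul] at h6
    rw [map_neg, map_smul, smul_eq_mul] at h7
    rw [div_lt_iff₀ hR, Real.norm_eq_abs] at hx2
    rcases abs_cases (f x) with ⟨h, _⟩ | ⟨h, _⟩ <;> rw [h] at hx2 <;> nlinarith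
  have h5 := huf W0 hW0t
  have h6 : ‖f‖ ≤ 0 := by
    rw [hRdef] at h4
    nlinarith
  have h7 : ‖f‖ = 0 := le_antisymm h6 (norm_nonneg _)
  rw [h7] at h3
  linarith

end Pool.Agent.H275R.LocRefl
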